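import Pool.Agent.helper11.TX.Spec3
import Pool.Agent.helper11.TX.MQ

/-!
# TX (MP_bf63dc_nt): the mass of the vertices against the mass of the coprime pairs, `6 ∣ W` (row MQS)
-/

namespace Pool.Agent.helper11.TX

open Finset

/-- **Row MQS.** -/
theorem MQS (h1 : GC_stmt) (h2 : VLS_stmt) : MQS_stmt := by
  intro W η hW h30 hη hη1 hT δ hδ
  have hVn : ∀ N, 0 ≤ VW W N := fun N => by
    unfold VW
    exact sum_nonneg fun a _ => sum_nonneg fun b _ => div_nonneg (MQ_yy_pos W _).le (by positivity)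
  have hPW : 0 ≤ PW W ^ 2 := sq_nonneg _
  by_cases hδ1 : 1 ≤ δ
  · refine ⟨0, fun N _ => ?_⟩
    have h3 : 0 ≤ ZZ N * PW W ^ 2 * VW W N := by
      have := MQ_ZZ_nonneg N
      have := hVn N
      positivity
    have h4 : (1 - η - δ) * ZZ N * PW W ^ 2 * VW W N =
        (1 - η - δ) * (ZZ N * PW W ^ 2 * VW W N) := by ring
    rw [h4]
    exact (mul_nonpos_of_nonpos_of_nonneg (by linarith) h3).trans (sq_nonneg _)
  push Not at hδ1
  obtain ⟨G, hG⟩ := exists_nat_ge (2 / δ)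
  have hG0 : (0 : ℝ) < G := lt_of_lt_of_le (by positivity) hG
  have hG1 : 1 ≤ G := by exact_mod_cast hG0
  have hGδ : 1 / (G : ℝ) ≤ δ / 2 := by
    rw [div_le_iff₀ hG0]
    rw [div_le_iff₀ hδ] at hG
    linarith
  -- large `N`
  have hlim : ∀ᶠ N : ℕ in Filter.atTop,
      32 * (1 + Real.log G) / δ ≤ Real.log (N : ℝ) := by
    exact (Real.tendsto_log_atTop.comp tendsto_natCast_atTop_atTop).eventually_ge_atTop _
  have hlim1 : ∀ᶠ N : ℕ in Filter.atTop, 1 ≤ Real.log (N : ℝ) :=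
    (Real.tendsto_log_atTop.comp tendsto_natCast_atTop_atTop).eventually_ge_atTop _
  obtain ⟨N₀, hN₀⟩ := Filter.eventually_atTop.1 (hlim.and hlim1)
  refine ⟨max N₀ G, fun N hN => ?_⟩
  obtain ⟨hL, hL1⟩ := hN₀ N ((le_max_left _ _).trans hN)
  have hNG : G ≤ N := (le_max_right _ _).trans hN
  have hV1 := h2 W N hW h30 (by omega)
  have hA := MQ_Y h1 W hNG
  have hB := MQ_YG W G
  have hC := MQ_ZZ_le hG1 hNG
  have hD := MQ_VW W hG1 hNG
  have hTG := hT G
  set Y := ∑ α ∈ Icc 1 N, yy W α / (α : ℝ) with hY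
  set YG := ∑ g ∈ Icc 1 G, yy W g ^ 2 / (g : ℝ) ^ 2 with hYG
  have hlG : 0 ≤ Real.log (G : ℝ) := Real.log_natCast_nonneg G
  -- `VW (N/G) ≥ (1 - δ/2) VW N`
  have hE : 2 * (1 + Real.log N) * (1 + Real.log G) ≤ δ / 2 * VW W N := by
    have e1 : 32 * (1 + Real.log G) ≤ δ * Real.log N := by
      rw [div_le_iff₀ hδ] at hL
      linarith
    have e2 : 2 * (1 + Real.log N) * (1 + Real.log G) ≤ 4 * Real.log N * (1 + Real.log G) :=
      mul_le_mul_of_nonneg_right (by linarith) (by linarith)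
    have e3 : 4 * Real.log N * (1 + Real.log G) ≤ δ / 2 * (Real.log N ^ 2 / 4) := by
      nlinarith
    have e4 : δ / 2 * (Real.log N ^ 2 / 4) ≤ δ / 2 * VW W N :=
      mul_le_mul_of_nonneg_left hV1 (by linarith)
    linarith
  have hF : (1 - δ / 2) * VW W N ≤ VW W (N / G) := by linarith
  have hZG := MQ_ZZ_one hG1
  have hG' : (1 - η) * ZZ G ≤ YG := by
    refine le_trans (mul_le_mul_of_nonneg_right (by linarith) (by linarith)) hB
  have hVN := hVn N
  have hH : (1 - η) * ZZ G * ((1 - δ / 2) * VW W N) ≤ Y ^ 2 := by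
    refine le_trans (mul_le_mul hG' hF ?_ ?_) hA
    · exact mul_nonneg (by linarith) hVN
    · exact sum_nonneg fun g _ => by positivity
  have hZN : ZZ N ≤ (1 + δ / 2) * ZZ G :=
    hC.trans (mul_le_mul_of_nonneg_right (by linarith) (by linarith))
  have hI : (1 - η) * (1 - δ / 2) * (ZZ N * VW W N) ≤ (1 + δ / 2) * Y ^ 2 := by
    have e1 : (1 - η) * (1 - δ / 2) * (ZZ N * VW W N) ≤
        (1 - η) * (1 - δ / 2) * (((1 + δ / 2) * ZZ G) * VW W N) :=
      mul_le_mul_of_nonneg_left (mul_le_mul_of_nonneg_right hZN hVN)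
        (mul_nonneg (by linarith) (by linarith))
    have e2 := mul_le_mul_of_nonneg_left hH (show (0 : ℝ) ≤ 1 + δ / 2 by linarith)
    nlinarith
  have hJ : (1 - η - δ) * (ZZ N * VW W N) ≤ Y ^ 2 := by
    have hP : 0 ≤ ZZ N * VW W N := mul_nonneg (MQ_ZZ_nonneg N) hVN
    have e1 : (1 - η - δ) * (1 + δ / 2) ≤ (1 - η) * (1 - δ / 2) := by nlinarith
    have e2 : (1 + δ / 2) * ((1 - η - δ) * (ZZ N * VW W N)) ≤ (1 + δ / 2) * Y ^ 2 := by
      refine le_trans ?_ hI
      have := mul_le_mul_of_nonneg_right e1 hP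
      linarith
    exact le_of_mul_le_mul_left e2 (by linarith)
  have hmm : mm W N = PW W * Y := rfl
  rw [hmm, mul_pow]
  have := mul_le_mul_of_nonneg_left hJ hPW
  linarith

end Pool.Agent.helper11.TX
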